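import Pool.Agent.TH127.MU.Point

/-!
# Iwasawa's `μ = 0` for Galois extensions of `ℚ`: the real subfield and the CM subfields

Let `p` be an odd prime number, and let `ℚ^cyc` be the cyclotomic `ℤ_p`-extension of `ℚ`. For a
number field `F` let `X(F)` be the Galois group of the maximal abelian pro-`p` extension of
`F^cyc = F ℚ^cyc` that is unramified at every prime and in which the primes above `p` split
completely. Iwasawa's conjecture says that `X(F)` is finitely generated over `ℤ_p`, and this holds
if and only if `X(F) / p` is finite, that is, if and only if there are only finitely many continuous
characters with values in `ℤ/p` of the absolute Galois group of `F^cyc` that are trivial on the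
inertia groups of all primes and on the decomposition groups of the primes above `p` (`FewChars`
with `𝓘 = splitGroups p`). Here a prime is a maximal ideal of the ring of the algebraic integers.
Only two properties of `B = ℚ^cyc` are used: it is totally real and Galois over `ℚ`, and it has only
finitely many primes above each prime number (`FewPrimes`: up to automorphisms over `B` only
finitely many primes contain a given nonzero integer).

We show: if `L` is a number field which is Galois over `ℚ`, then the conjecture holds for `L` if and
only if it holds for the maximal real subfield `L ∩ ℝ` and for all CM subfields of `L` of degree
prime to `p`. In particular Iwasawa's conjecture for `p` and all number fields is equivalent to its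
case for the fields with a real place and the CM fields of degree prime to `p`.

Proof. Let `G` be the Galois group of `L`, let `H` be the group of automorphisms over `L ∩ B`, and
let `V` be the dual of the group of the characters of the absolute Galois group of `L B`. For
`C ⊆ G` with fixed field `F` the restriction of characters from `F B` to `L B` has finite kernel,
and its image has finite index in the group of invariants under `C ∩ H` (genus theory). So the
assertion for `F` holds if and only if the coinvariants of `V` under `C ∩ H` are finite. For each
complex conjugation `c ∈ G` the fixed field of `c` is conjugate to `L ∩ ℝ`, so that `(1 + c) V` is
finite. Let `W` be the sum of these spaces. On `V / W` all complex conjugations are `-1`, so the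
group `M` generated by the products of two of them acts trivially. Let `D / M` be a Sylow subgroup
of `G / M` for the prime `p`. The fixed field of `D` has degree prime to `p`, and it is real or a
CM field since complex conjugation is central in `G / M`. So the coinvariants of `V` under
`D ∩ H` are finite, and then `V / W` is finite, since a finite `p`-group acts on it, with finite
coinvariants.
-/

set_option autoImplicit false

namespace Pool.Agent.Results.MP_d0239a_nt.RealPlaceOrCM

open NumberField Pool.Agent.TH127.MU

/-- Let `p` be a prime number, `B` a totally real Galois extension of `ℚ` (of possibly infinite
degree) with only finitely many primes above each prime number, and `L` a number field which is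
Galois over `ℚ`. The absolute Galois group of `L B` has only finitely many characters with values in
`ℤ/p` that are unramified at all primes and split at the primes above `p` if and only if this holds
for the field `L ∩ ℝ` in place of `L` and for the CM subfields of `L` of degree prime to `p`. -/
theorem result (p : ℕ) [hp : Fact p.Prime] (B : IntermediateField ℚ ℂ) [Normal ℚ B]
    [IsTotallyReal B] (hB : FewPrimes B) (L : IntermediateField ℚ ℂ) [FiniteDimensional ℚ L]
    [Normal ℚ L] :
    FewChars p (splitGroups p) B L ↔
      FewChars p (splitGroups p) B (L ⊓ realField) ∧
      ∀ K ≤ L, IsCMField K → ¬ p ∣ Module.finrank ℚ K → FewChars p (splitGroups p) B K :=
  criterion_chars p B (splitGroups p) (conjClosed_splitGroups p)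
    (fewRamified_splitGroups p hp.out.ne_zero B hB) L

end Pool.Agent.Results.MP_d0239a_nt.RealPlaceOrCM
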