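import Pool.Agent.TH570.Mu.Main

/-!
# Iwasawa's `μ`-conjecture: which number fields suffice?

Let `p` be a prime number and `k` a number field which is Galois over `ℚ`. A class `C` of number
fields (subfields of the algebraic closure of `ℚ`) is closed (`IsClosedClass p k C`) if it contains
with a number field all its subfields, and with a number field `F ⊇ k` all Galois extensions of `F`
of `p`-power degree. By two theorems of Iwasawa (1973) the number fields `F` for which the
unramified Iwasawa module of the cyclotomic `ℤ_p`-extension is finitely generated over `ℤ_p`
(`μ = 0`) form such a class, for `k = ℚ` if `p` is odd, and for `k = ℚ(i)` if `p = 2`.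

We determine which sets `S` of number fields suffice: every closed class which contains `S`
contains all number fields if and only if every extension `F` of `k` of degree prime to `p` has a
conjugate which is contained in a member of `S`. The answer is the same if the classes are
required to be closed under all extensions of `p`-power degree, Galois or not.

Proof. Let `K` be a number field that is Galois over `ℚ` and contains `k`, and let `F₁` be the
fixed field of a Sylow subgroup `P` of `Gal(K/k)` for the prime `p`. If (3) holds, a closed class
that contains `S` contains a conjugate of `F₁` and so contains `K`. Conversely, suppose that no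
conjugate of `F` is contained in a member of `S`, where `[F:k]` is prime to `p`. Take `K ⊇ F`,
choose `P` such that `F₁ ⊇ F`, and let `C` be the class of all number fields that contain no
conjugate of `F₁`. It contains `S`, and it is closed under subfields. Let `E' / E` be of `p`-power
degree, `E ⊇ k`, and suppose that `E'` contains a conjugate of `F₁`. The image in `Gal(K/k)` of the
absolute Galois group of `E'` is contained in a conjugate of `P`, and its index in the image `A` of
the absolute Galois group of `E` divides a power of `p`, in that `A` is a `p`-group. By Sylow's
theorem `A` is contained in a conjugate of `P`, so that `E` contains a conjugate of `F₁`.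
-/

open Pool.Agent.TH570.Mu

namespace Pool.Agent.Results.MP_d0239a_nt.SufficientFields

/-- **Which number fields suffice for a property which descends to subfields and ascends in Galois
extensions of `p`-power degree.** -/
theorem result (p : ℕ) (hp : p.Prime) (k : IntermediateField ℚ (AlgebraicClosure ℚ))
    (hk : NumberField k) (hkn : ∀ g : Gal(AlgebraicClosure ℚ/ℚ), k.map g.toAlgHom = k)
    (S : Set (IntermediateField ℚ (AlgebraicClosure ℚ))) (hS : ∀ D ∈ S, NumberField D) :
    List.TFAE [
      ∀ C : IntermediateField ℚ (AlgebraicClosure ℚ) → Prop, IsClosedClass p k C →
        (∀ D ∈ S, C D) → ∀ F : IntermediateField ℚ (AlgebraicClosure ℚ), NumberField F → C F,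
      ∀ C : IntermediateField ℚ (AlgebraicClosure ℚ) → Prop, IsStronglyClosedClass p k C →
        (∀ D ∈ S, C D) → ∀ F : IntermediateField ℚ (AlgebraicClosure ℚ), NumberField F → C F,
      ∀ F : IntermediateField ℚ (AlgebraicClosure ℚ), NumberField F → k ≤ F →
        ¬ p ∣ relDegree k F →
          ∃ D ∈ S, ∃ g : Gal(AlgebraicClosure ℚ/ℚ), F.map g.toAlgHom ≤ D] :=
  suffices_iff p hp k hk hkn S hS

end Pool.Agent.Results.MP_d0239a_nt.SufficientFields
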