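import Pool.Agent.TH743.MU.Main

/-!
# Iwasawa's conjecture `μ = 0`: fields cut out by vectors in irreducible representations

Let `p` be an odd prime number and let `P(K)` be the conclusion of the conjecture for the number
field `K`: the group `X(K)` is finitely generated over `ℤ_p`. Let `L` be a number field which is
Galois over `ℚ`, let `k = L ∩ ℚ^cyc`, and `G = Gal(L/k) = Gal(L^cyc/ℚ^cyc)`. For the fields `K`
between `k` and `L` the group `X(K)` is finitely generated if and only if `V^Gal(L/K)` is finite for
`V = Hom(X(L), 𝔽_p)`, since only finitely many primes ramify in `L^cyc/K^cyc` (genus theory, as in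
Iwasawa 1973). This is the only property of `P` that is used (`GenusTheory`).

* `criterion`: a set `𝒮` of intermediate fields has the property that `P` holds for all intermediate
  fields as soon as it holds for the fields in `𝒮`, for all `P` with `GenusTheory`, if and only if
  each irreducible representation of `G` over `𝔽_p` has a nonzero vector that is fixed by
  `Gal(L/K)` for some `K` in `𝒮`.
* This holds for the fields of degree prime to `p` over `k` that are cut out by vectors in
  irreducible representations over `𝔽_p`: each nonzero vector fixed by `Gal(L/K)` has the stabiliser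
  `Gal(L/K)`.
* It holds for the cut out fields which have a real place or are CM fields of degree prime to `p`.
* It holds for the proper subfields of `L` if and only if `G` does not act freely on the nonzero
  vectors of an irreducible representation over `𝔽_p`.
-/

set_option autoImplicit false

namespace Pool.Agent.Results.MP_d0239a_nt.VectorStabilizers

open Pool.Agent.TH743.MU

/-- Let `L/k` be a finite Galois extension and `p` a prime number. The theorem determines the sets
of intermediate fields that suffice for all properties described by genus theory, and gives three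
examples. -/
theorem result (p : ℕ) [Fact p.Prime] (k L : Type) [Field k] [Field L] [Algebra k L]
    [FiniteDimensional k L] [IsGalois k L] :
    (∀ 𝒮 : Set (IntermediateField k L), Sufficient p k L 𝒮 ↔ SeesAll p k L 𝒮) ∧
    Sufficient p k L {K | CutOut p k L K ∧ ¬ p ∣ Module.finrank k K} ∧
    (p ≠ 2 → ∀ C : Set (L ≃ₐ[k] L), (∀ c ∈ C, c * c = 1) →
      Sufficient p k L {K | CutOut p k L K ∧
        (HasReal C K ∨ (IsCM C K ∧ ¬ p ∣ Module.finrank k K))}) ∧
    (Sufficient p k L {K | K ≠ ⊤} ↔
      ∀ (V : Type) (_ : AddCommGroup V) (_ : Module (ZMod p) V) (_ : Finite V)
        (ρ : Representation (ZMod p) (L ≃ₐ[k] L) V), Irred ρ →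
        ∃ g : L ≃ₐ[k] L, g ≠ 1 ∧ ∃ v : V, v ≠ 0 ∧ ρ g v = v) :=
  ⟨criterion p k L, mainA p k L, fun hp C hC => mainB p k L hp C hC, proper_iff p k L⟩

end Pool.Agent.Results.MP_d0239a_nt.VectorStabilizers
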