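import Pool.Agent.TH125.Frob.Main

/-!
# The `μ`-invariant of fields with Frobenius Galois group, for a positive density of primes

Let `L` be a Galois extension of `ℚ` whose group `G` is a Frobenius group with cyclic kernel `N` and
complement `H` (for instance dihedral of order `2 m` with `m` odd, or the group of `x ↦ a x + b` over a
prime field). Put `K = L ^ H`, of degree `|N|`, and `F = L ^ N`, which is abelian over `ℚ`. Let `p` be
a prime not dividing `|N| h(K)` and unramified in `L` whose Frobenius generates `N`. Then `p` is inert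
in `K`, and by Iwasawa's criterion the `p`-parts of the class groups of the layers `K_n` of the
cyclotomic `ℤ_p`-extension are trivial; by Ferrero and Washington the `p`-ranks of the class groups of
the layers `F_n` are bounded. The theorem below says that then every class of `p`-power order of
`L_n` comes from `F_n` and that the `p`-ranks of the class groups of the `L_n` are bounded: the
`μ`-invariant of `L` vanishes. This applies to all but finitely many of the primes whose Frobenius
generates `N`, a set of positive density.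
-/

set_option autoImplicit false

namespace Pool.Agent.Results.MP_d0239a_nt.ZeroMuFrobeniusFields

open Pool.Agent.TH125.Frob

open scoped Classical in
/-- `j : B → A` and `ν : A → B` behave like the extension and the norm map between the class groups
of a field with group `G` of automorphisms and of the fixed field of the subgroup `U`: the
composition `j ∘ ν` is the sum over `U`. -/
def IsExtensionNorm {G : Type} [Group G] [Fintype G] (U : Subgroup G) {A B : Type} [AddCommGroup A]
    [AddCommGroup B] [DistribMulAction G A] (j : B →+ A) (ν : A →+ B) : Prop :=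
  ∀ a : A, j (ν a) = ∑ u : U, (u : G) • a

/-- **Class groups in the tower over a field with Frobenius Galois group.** `A n`, `B n`, `C n` are
the `p`-parts of the class groups of the layers of `L`, `F = L ^ N` and `K = L ^ H`. -/
theorem result {G : Type} [Group G] [Fintype G] {N H : Subgroup G} (hG : IsFrobenius N H) (p : ℕ)
    (hp : p.Prime) (hpN : ¬ p ∣ Nat.card N) (A B C : ℕ → Type) [∀ n, AddCommGroup (A n)]
    [∀ n, AddCommGroup (B n)] [∀ n, AddCommGroup (C n)] [∀ n, DistribMulAction G (A n)]
    [∀ n, Finite (B n)] (hA : ∀ n, ∀ a : A n, ∃ k : ℕ, p ^ k • a = 0)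
    (jB : ∀ n, B n →+ A n) (νB : ∀ n, A n →+ B n) (hB : ∀ n, IsExtensionNorm N (jB n) (νB n))
    (jC : ∀ n, C n →+ A n) (νC : ∀ n, A n →+ C n) (hC : ∀ n, IsExtensionNorm H (jC n) (νC n))
    (iwasawa : ∀ n, Subsingleton (C n)) (R : ℕ)
    (ferreroWashington : ∀ n, Nat.card {b : B n // p • b = 0} ≤ R) :
    (∀ n, Function.Surjective (jB n)) ∧ ∀ n, Nat.card {a : A n // p • a = 0} ≤ R := by
  classical
  have key : ∀ n, ∀ a : A n, jB n (νB n a) = Nat.card N • a := by
    intro n a
    rw [hB n a, Nat.card_eq_fintype_card]
    convert! sum_kernel hG (A := A n) ?_ a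
    intro a
    have h1 := hC n a
    have h2 : νC n a = 0 := (iwasawa n).elim _ _
    rw [h2, map_zero] at h1
    convert! h1.symm
  have hcop : ∀ k : ℕ, Nat.Coprime (Nat.card N) (p ^ k) := fun k =>
    Nat.Coprime.pow_right k ((Nat.Prime.coprime_iff_not_dvd hp).2 hpN).symm
  refine ⟨fun n a => ?_, fun n => ?_⟩
  · obtain ⟨k, hk⟩ := hA n a
    obtain ⟨u, v, huv⟩ := Nat.isCoprime_iff_coprime.2 (hcop k)
    refine ⟨νB n (u • a), ?_⟩
    rw [key]
    have h1 : ((p ^ k : ℕ) : ℤ) • a = 0 := by rw [natCast_zsmul, hk]
    calc Nat.card N • (u • a) = ((Nat.card N : ℕ) : ℤ) • (u • a) := (natCast_zsmul _ _).symm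
      _ = (u * ((Nat.card N : ℕ) : ℤ)) • a := by rw [← mul_smul, mul_comm]
      _ = (u * ((Nat.card N : ℕ) : ℤ)) • a + v • (((p ^ k : ℕ) : ℤ) • a) := by
          rw [h1, smul_zero, add_zero]
      _ = (u * ((Nat.card N : ℕ) : ℤ) + v * ((p ^ k : ℕ) : ℤ)) • a := by rw [add_smul, mul_smul v]
      _ = a := by rw [huv, one_smul]
  · refine le_trans ?_ (ferreroWashington n)
    have : Finite {b : B n // p • b = 0} := Subtype.finite
    refine Nat.card_le_card_of_injective
      (fun a : {a : A n // p • a = 0} => (⟨νB n a.1, by rw [← map_nsmul, a.2, map_zero]⟩ :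
        {b : B n // p • b = 0})) ?_
    rintro ⟨a, ha⟩ ⟨a', ha'⟩ h
    have h1 : νB n a = νB n a' := congrArg Subtype.val h
    have h2 : Nat.card N • (a - a') = 0 := by
      rw [nsmul_sub, ← key, ← key, h1, sub_self]
    have h3 : p ^ 1 • (a - a') = 0 := by
      rw [pow_one, nsmul_sub, ha, ha', sub_zero]
    have h4 : addOrderOf (a - a') ∣ 1 := by
      rw [← Nat.Coprime.gcd_eq_one (hcop 1)]
      exact Nat.dvd_gcd (addOrderOf_dvd_of_nsmul_eq_zero h2) (addOrderOf_dvd_of_nsmul_eq_zero h3)
    have h5 : a - a' = 0 := AddMonoid.addOrderOf_eq_one_iff.1 (Nat.dvd_one.1 h4)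
    exact Subtype.ext (sub_eq_zero.1 h5)

end Pool.Agent.Results.MP_d0239a_nt.ZeroMuFrobeniusFields
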